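import Pool.Agent.Q74.PD.Stm7

/-! # Project PD, job Sqg: the quadratic mean grows linearly -/

set_option autoImplicit false

namespace Pool.Agent.Q53.PD.Sqg

open Finset Filter Topology
open Pool.Agent.Q74.PD

theorem sum_pre (n k : ℕ) (d : ℤ) (f : ℤ → ℝ) (hf : ∀ a b : ℤ, f (a + 3 ^ n * b) = f a) :
    ∑ a ∈ range (3 ^ (n + 1)), (open Classical in
      if (3 : ℤ) ∣ 2 ^ k * (a : ℤ) - d then f ((2 ^ k * (a : ℤ) - d) / 3) else 0) =
    ∑ x ∈ range (3 ^ n), f (x : ℤ) := by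
  classical
  rw [← Finset.sum_filter]
  obtain ⟨u, v, huv⟩ : IsCoprime ((2 : ℤ) ^ k) (3 ^ (n + 1)) := by
    apply IsCoprime.pow
    exact Int.isCoprime_iff_gcd_eq_one.2 (by norm_num)
  have h3 : (0 : ℤ) < 3 ^ n := by positivity
  have h3' : (0 : ℤ) < 3 ^ (n + 1) := by positivity
  have key : ∀ x : ℕ, ∃ t : ℤ, 2 ^ k * ((u * (3 * (x : ℤ) + d)) % 3 ^ (n + 1)) - d =
      3 * ((x : ℤ) + 3 ^ n * t) := by
    intro x
    have e1 := Int.emod_add_mul_ediv (u * (3 * (x : ℤ) + d)) (3 ^ (n + 1))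
    refine ⟨-(v * (3 * (x : ℤ) + d)) - 2 ^ k * (u * (3 * (x : ℤ) + d) / 3 ^ (n + 1)), ?_⟩
    have e2 : (u * (3 * (x : ℤ) + d)) % 3 ^ (n + 1) = u * (3 * (x : ℤ) + d) -
        3 ^ (n + 1) * (u * (3 * (x : ℤ) + d) / 3 ^ (n + 1)) := by linarith
    rw [e2]
    have e3 : (3 : ℤ) ^ (n + 1) = 3 * 3 ^ n := by ring
    rw [e3] at huv ⊢
    linear_combination (3 * (x : ℤ) + d) * huv
  have hnn : ∀ x : ℕ, (0 : ℤ) ≤ (u * (3 * (x : ℤ) + d)) % 3 ^ (n + 1) :=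
    fun x => Int.emod_nonneg _ h3'.ne'
  symm
  refine Finset.sum_nbij' (fun x : ℕ => ((u * (3 * (x : ℤ) + d)) % 3 ^ (n + 1)).toNat)
    (fun a : ℕ => (((2 ^ k * (a : ℤ) - d) / 3) % 3 ^ n).toNat) ?_ ?_ ?_ ?_ ?_
  · intro x hx
    rw [Finset.mem_filter, Finset.mem_range]
    refine ⟨?_, ?_⟩
    · have h := Int.emod_lt_of_pos (u * (3 * (x : ℤ) + d)) h3'
      have h1 := hnn x
      zify
      rw [Int.toNat_of_nonneg h1]
      exact h
    · rw [Int.toNat_of_nonneg (hnn x)]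
      obtain ⟨t, ht⟩ := key x
      rw [ht]
      exact dvd_mul_right _ _
  · intro a ha
    rw [Finset.mem_range]
    have h := Int.emod_lt_of_pos ((2 ^ k * (a : ℤ) - d) / 3) h3
    have h1 := Int.emod_nonneg ((2 ^ k * (a : ℤ) - d) / 3) h3.ne'
    zify
    rw [Int.toNat_of_nonneg h1]
    exact h
  · intro x hx
    rw [Finset.mem_range] at hx
    rw [Int.toNat_of_nonneg (hnn x)]
    obtain ⟨t, ht⟩ := key x
    rw [ht, Int.mul_ediv_cancel_left _ (by norm_num), Int.add_mul_emod_self_left,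
      Int.emod_eq_of_lt (by positivity) (by exact_mod_cast hx)]
    rfl
  · intro a ha
    rw [Finset.mem_filter, Finset.mem_range] at ha
    obtain ⟨ha1, y, hy⟩ := ha
    rw [hy, Int.mul_ediv_cancel_left _ (by norm_num),
      Int.toNat_of_nonneg (Int.emod_nonneg _ h3.ne')]
    have e1 := Int.emod_add_mul_ediv y (3 ^ n)
    have e2 : y % 3 ^ n = y - 3 ^ n * (y / 3 ^ n) := by linarith
    have e4 : u * (3 * (y % 3 ^ n) + d) = (a : ℤ) + 3 ^ (n + 1) * (-(v * a) - u * (y / 3 ^ n)) := by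
      rw [e2]
      have e3 : (3 : ℤ) ^ (n + 1) = 3 * 3 ^ n := by ring
      rw [e3] at huv ⊢
      linear_combination (a : ℤ) * huv - u * hy
    rw [e4, Int.add_mul_emod_self_left, Int.emod_eq_of_lt (by positivity) (by exact_mod_cast ha1)]
    rfl
  · intro x hx
    rw [Int.toNat_of_nonneg (hnn x)]
    obtain ⟨t, ht⟩ := key x
    rw [ht, Int.mul_ediv_cancel_left _ (by norm_num), hf]

theorem sq_ge (t : ℕ → ℝ) (ht : ∀ e, 0 ≤ t e) (E : ℕ) :
    ∑ e ∈ range (E + 3), t e ^ 2 + 2 * (t 0 * t 2) ≤ (∑ e ∈ range (E + 3), t e) ^ 2 := by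
  induction E with
  | zero =>
    simp only [zero_add, Finset.sum_range_succ, Finset.sum_range_zero]
    nlinarith [mul_nonneg (ht 0) (ht 1), mul_nonneg (ht 1) (ht 2), mul_nonneg (ht 0) (ht 2)]
  | succ E ih =>
    rw [show E + 1 + 3 = (E + 3) + 1 by ring, Finset.sum_range_succ (fun e => t e ^ 2) (E + 3),
      Finset.sum_range_succ t (E + 3)]
    have h1 : 0 ≤ ∑ e ∈ range (E + 3), t e := Finset.sum_nonneg fun e _ => ht e
    nlinarith [mul_nonneg h1 (ht (E + 3))]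

theorem step (hD : S_Dlm) (d : ℤ) (hd : IsCoprime d 3) (c : ℝ) (hc : 0 < c) (m : ℕ)
    (hlow : ∀ b : ℤ, ¬ (3 : ℤ) ∣ b → c ≤ Dn d (m + 1) b) :
    3 * ∑ b ∈ range (3 ^ (m + 1)), Dn d (m + 1) b ^ 2 + 9 / 8 * c ^ 2 * 3 ^ m ≤
      ∑ b ∈ range (3 ^ (m + 2)), Dn d (m + 2) b ^ 2 := by
  classical
  obtain ⟨hb, hper, -⟩ := hD d hd (m + 1)
  have h0 : ∀ a, 0 ≤ Dn d (m + 1) a := fun a => (hb 1 a).1.trans (hb 1 a).2.1
  have h1 : ∀ a, Dn d (m + 1) a ≤ 3 ^ (m + 1) := fun a => (hb 1 a).2.2.1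
  set t : ℤ → ℕ → ℝ := fun a e => if (3 : ℤ) ∣ 2 ^ (e + 1) * a - d
      then 3 * (1 / 2 : ℝ) ^ (e + 1) * Dn d (m + 1) ((2 ^ (e + 1) * a - d) / 3) else 0 with ht
  have ht0 : ∀ a e, 0 ≤ t a e := by
    intro a e
    simp only [ht]
    split_ifs
    · exact mul_nonneg (by positivity) (h0 _)
    · exact le_rfl
  have ht1 : ∀ a e, t a e ≤ 3 * 3 ^ (m + 1) * (1 / 2 : ℝ) ^ (e + 1) := by
    intro a e
    simp only [ht]
    split_ifs
    · calc 3 * (1 / 2 : ℝ) ^ (e + 1) * Dn d (m + 1) ((2 ^ (e + 1) * a - d) / 3)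
          ≤ 3 * (1 / 2 : ℝ) ^ (e + 1) * 3 ^ (m + 1) :=
            mul_le_mul_of_nonneg_left (h1 _) (by positivity)
        _ = _ := by ring
    · positivity
  have hsum : ∀ a, Summable (t a) := by
    intro a
    refine Summable.of_nonneg_of_le (ht0 a) (ht1 a) ?_
    apply Summable.mul_left
    have h2 : Summable (fun e : ℕ => (1 / 2 : ℝ) ^ e) :=
      summable_geometric_of_lt_one (by norm_num) (by norm_num)
    exact (summable_nat_add_iff 1).2 h2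
  have hrec : ∀ a : ℤ, Dn d (m + 2) a = ∑' e, t a e := by
    intro a
    rfl
  have hsq : ∀ (E : ℕ) (a : ℤ), ∑ e ∈ range (E + 3), t a e ^ 2 + 2 * (t a 0 * t a 2) ≤
      Dn d (m + 2) a ^ 2 := by
    intro E a
    refine (sq_ge (t a) (ht0 a) E).trans ?_
    rw [hrec a]
    refine pow_le_pow_left₀ (Finset.sum_nonneg fun e _ => ht0 a e) ?_ 2
    exact (hsum a).sum_le_tsum _ fun e _ => ht0 a e
  set S : ℝ := ∑ b ∈ range (3 ^ (m + 1)), Dn d (m + 1) b ^ 2 with hS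
  have hte : ∀ e : ℕ, ∑ a ∈ range (3 ^ (m + 2)), t (a : ℤ) e ^ 2 = 9 * (1 / 4 : ℝ) ^ (e + 1) * S := by
    intro e
    have h2 := sum_pre (m + 1) (e + 1) d
      (fun y => 9 * (1 / 4 : ℝ) ^ (e + 1) * Dn d (m + 1) y ^ 2) (by
        intro a b
        rw [hper])
    rw [hS, Finset.mul_sum, ← h2]
    refine Finset.sum_congr rfl fun a _ => ?_
    simp only [ht]
    split_ifs
    · rw [mul_pow, mul_pow, ← pow_mul, mul_comm (e + 1) 2, pow_mul]
      norm_num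
    · norm_num
  have hcr : ∑ a ∈ range (3 ^ (m + 2)), t (a : ℤ) 0 * t (a : ℤ) 2 =
      ∑ x ∈ range (3 ^ (m + 1)), 9 / 16 * (Dn d (m + 1) (x : ℤ) * Dn d (m + 1) (4 * (x : ℤ) + d)) := by
    have h2 := sum_pre (m + 1) 1 d
      (fun y => 9 / 16 * (Dn d (m + 1) y * Dn d (m + 1) (4 * y + d))) (by
        intro a b
        rw [hper, show 4 * (a + 3 ^ (m + 1) * b) + d = (4 * a + d) + 3 ^ (m + 1) * (4 * b) by ring,
          hper])
    rw [← h2]
    refine Finset.sum_congr rfl fun a _ => ?_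
    simp only [ht]
    by_cases h3 : (3 : ℤ) ∣ 2 ^ 1 * (a : ℤ) - d
    · obtain ⟨x, hx⟩ := h3
      have h4 : (2 : ℤ) ^ (2 + 1) * (a : ℤ) - d = 3 * (4 * x + d) := by
        linear_combination 4 * hx
      have h5 : (2 : ℤ) ^ (0 + 1) * (a : ℤ) - d = 3 * x := by
        linear_combination hx
      rw [h4, h5, if_pos (dvd_mul_right _ _), if_pos (dvd_mul_right _ _),
        if_pos (dvd_mul_right _ _), Int.mul_ediv_cancel_left _ (by norm_num),
        Int.mul_ediv_cancel_left _ (by norm_num)]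
      ring
    · rw [if_neg h3]
      have h5 : ¬ (3 : ℤ) ∣ 2 ^ (0 + 1) * (a : ℤ) - d := h3
      rw [if_neg h5, zero_mul]
  have hcl : c ^ 2 * 3 ^ m ≤
      ∑ x ∈ range (3 ^ (m + 1)), Dn d (m + 1) (x : ℤ) * Dn d (m + 1) (4 * (x : ℤ) + d) := by
    have h2 := sum_pre m 0 d (fun _ => c ^ 2) (fun _ _ => rfl)
    rw [Finset.sum_const, Finset.card_range, nsmul_eq_mul] at h2
    push_cast at h2
    rw [mul_comm, ← h2]
    refine Finset.sum_le_sum fun x _ => ?_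
    split_ifs with h3
    · rw [one_mul] at h3
      have hd3 : ¬ (3 : ℤ) ∣ d := by
        intro h
        obtain ⟨p, q, hpq⟩ := hd
        obtain ⟨k, hk⟩ := h
        rw [hk] at hpq
        have h4 : (3 : ℤ) ∣ 1 := ⟨p * k + q, by linear_combination -hpq⟩
        omega
      have h5 : ¬ (3 : ℤ) ∣ (x : ℤ) := by omega
      have h6 : ¬ (3 : ℤ) ∣ 4 * (x : ℤ) + d := by omega
      have h7 := hlow _ h5
      have h8 := hlow _ h6
      rw [sq]
      exact mul_le_mul h7 h8 hc.le (h0 _)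
    · exact mul_nonneg (h0 _) (h0 _)
  have hall : ∀ E : ℕ, (∑ e ∈ range (E + 3), 9 * (1 / 4 : ℝ) ^ (e + 1)) * S +
      9 / 8 * c ^ 2 * 3 ^ m ≤ ∑ b ∈ range (3 ^ (m + 2)), Dn d (m + 2) b ^ 2 := by
    intro E
    have h2 : ∑ a ∈ range (3 ^ (m + 2)), (∑ e ∈ range (E + 3), t (a : ℤ) e ^ 2 +
        2 * (t (a : ℤ) 0 * t (a : ℤ) 2)) ≤ ∑ b ∈ range (3 ^ (m + 2)), Dn d (m + 2) b ^ 2 :=
      Finset.sum_le_sum fun a _ => hsq E a
    rw [Finset.sum_add_distrib, Finset.sum_comm, ← Finset.mul_sum, hcr, ← Finset.mul_sum] at h2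
    rw [Finset.sum_mul]
    simp only [hte] at h2
    linarith
  have hlim : Tendsto (fun E : ℕ => (∑ e ∈ range (E + 3), 9 * (1 / 4 : ℝ) ^ (e + 1)) * S +
      9 / 8 * c ^ 2 * 3 ^ m) atTop (𝓝 (3 * S + 9 / 8 * c ^ 2 * 3 ^ m)) := by
    have h2 : HasSum (fun e : ℕ => 9 * (1 / 4 : ℝ) ^ (e + 1)) 3 := by
      have h3 : HasSum (fun e : ℕ => (1 / 4 : ℝ) ^ e) (1 - 1 / 4)⁻¹ :=
        hasSum_geometric_of_lt_one (by norm_num) (by norm_num)
      have h4 := h3.mul_left (9 / 4)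
      have e1 : (9 / 4 : ℝ) * (1 - 1 / 4)⁻¹ = 3 := by norm_num
      rw [e1] at h4
      refine h4.congr_fun ?_
      intro e
      ring
    have h3 := (tendsto_add_atTop_iff_nat 3).2 h2.tendsto_sum_nat
    exact (h3.mul_const S).add_const _
  exact le_of_tendsto' hlim hall

theorem sqg (hD : S_Dlm) : S_Sqg := by
  intro d hd c hc hlow n hn
  induction n, hn using Nat.le_induction with
  | base =>
    have h1 : (0 : ℝ) ≤ ∑ b ∈ range (3 ^ 1), Dn d 1 b ^ 2 := Finset.sum_nonneg fun b _ => sq_nonneg _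
    rw [Nat.cast_one, sub_self, mul_zero]
    positivity
  | succ n hn ih =>
    obtain ⟨m, rfl⟩ : ∃ m, n = m + 1 := ⟨n - 1, by omega⟩
    have h1 := step hD d hd c hc m (hlow (m + 1) (by omega))
    have h3 : (0 : ℝ) < 3 ^ (m + 1) := by positivity
    rw [le_div_iff₀ h3] at ih
    rw [le_div_iff₀ (by positivity)]
    push_cast at ih ⊢
    have e1 : (3 : ℝ) ^ (m + 1 + 1) = 9 * 3 ^ m := by ring
    have e2 : (3 : ℝ) ^ (m + 1) = 3 * 3 ^ m := by ring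
    rw [e1]
    rw [e2] at ih
    linarith

end Pool.Agent.Q53.PD.Sqg
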